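import Pool.Agent.helper51.QS.SpecA

/-!
# Row qs:WVL: monomial valuations
-/

set_option autoImplicit false

namespace Pool.Agent.QS

open Pool.Agent.PC

universe u

section

variable {k A : Type u} [Field k] [CommRing A] [IsDomain A] [Algebra k A] {n : ℕ}

/-- the weighted order of the Taylor expansion -/
noncomputable def WVL_o (φ : A →ₐ[k] MvPowerSeries (Fin n) k) (w : Fin n → ℕ) (a : A) : ℕ :=
  (MvPowerSeries.weightedOrder w (φ a)).toNat

omit [IsDomain A] in
theorem WVL_o_coe {φ : A →ₐ[k] MvPowerSeries (Fin n) k} (hφ : Function.Injective φ)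
    (w : Fin n → ℕ) {a : A} (ha : a ≠ 0) :
    ((WVL_o φ w a : ℕ) : ℕ∞) = MvPowerSeries.weightedOrder w (φ a) := by
  have h1 : φ a ≠ 0 := by
    intro h
    exact ha (hφ (h.trans (map_zero φ).symm))
  exact (MvPowerSeries.ne_zero_iff_weightedOrder_finite w).1 h1

theorem WVL_o_mul {φ : A →ₐ[k] MvPowerSeries (Fin n) k} (hφ : Function.Injective φ)
    (w : Fin n → ℕ) {a b : A} (ha : a ≠ 0) (hb : b ≠ 0) :
    WVL_o φ w (a * b) = WVL_o φ w a + WVL_o φ w b := by
  have h1 := WVL_o_coe hφ w (mul_ne_zero ha hb)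
  rw [map_mul, MvPowerSeries.weightedOrder_mul, ← WVL_o_coe hφ w ha, ← WVL_o_coe hφ w hb] at h1
  exact_mod_cast h1

theorem WVL_o_add {φ : A →ₐ[k] MvPowerSeries (Fin n) k} (hφ : Function.Injective φ)
    (w : Fin n → ℕ) {a b : A} (ha : a ≠ 0) (hb : b ≠ 0) (hab : a + b ≠ 0) :
    min (WVL_o φ w a) (WVL_o φ w b) ≤ WVL_o φ w (a + b) := by
  have h1 := MvPowerSeries.min_weightedOrder_le_add w (f := φ a) (g := φ b)
  rw [← map_add, ← WVL_o_coe hφ w hab, ← WVL_o_coe hφ w ha, ← WVL_o_coe hφ w hb] at h1
  rcases min_le_iff.1 h1 with h2 | h2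
  · exact min_le_iff.2 (Or.inl (by exact_mod_cast h2))
  · exact min_le_iff.2 (Or.inr (by exact_mod_cast h2))

theorem WVL_inj [IsNoetherianRing A] {m : Ideal A} (hm : m ≠ ⊤) {y : Fin n → A}
    {φ : A →ₐ[k] MvPowerSeries (Fin n) k} (hT : Taylor m y φ) : Function.Injective φ := by
  rw [injective_iff_map_eq_zero]
  intro a ha
  have h1 : a ∈ (⨅ i : ℕ, m ^ i : Ideal A) := by
    rw [Submodule.mem_iInf]
    intro N
    rw [hT.2 N a]
    intro α _
    rw [ha, map_zero]
  rw [Ideal.iInf_pow_eq_bot_of_isDomain m hm] at h1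
  exact h1

end

/-- WVL: monomial valuations -/
theorem WVL : WVL_stmt.{u} := by
  intro k A K _ _ _ _ _ _ _ _ n m hmax y φ hT w hw
  have hφ : Function.Injective φ := WVL_inj hmax.ne_top hT
  have hinj : Function.Injective (algebraMap A K) := IsFractionRing.injective A K
  have hne : ∀ a : A, a ≠ 0 → algebraMap A K a ≠ 0 := by
    intro a ha h
    exact ha (hinj (h.trans (map_zero _).symm))
  have hex : ∀ x : K, ∃ a b : A, b ≠ 0 ∧ algebraMap A K a / algebraMap A K b = x := by
    intro x
    obtain ⟨a, b, hb, h⟩ := IsFractionRing.div_surjective (A := A) x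
    exact ⟨a, b, nonZeroDivisors.ne_zero hb, h⟩
  choose nu de hde hnd using hex
  set o := WVL_o φ w with ho
  have hov : ∀ i, y i ≠ 0 ∧ o (y i) = w i := by
    intro i
    have h1 : φ (y i) = MvPowerSeries.X i := hT.1 i
    have h2 : y i ≠ 0 := by
      intro h
      rw [h, map_zero] at h1
      have h3 := congrArg (MvPowerSeries.coeff (Finsupp.single i 1)) h1
      rw [map_zero, MvPowerSeries.coeff_index_single_self_X] at h3
      exact zero_ne_one h3
    refine ⟨h2, ?_⟩
    have h3 := WVL_o_coe hφ w h2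
    rw [h1, MvPowerSeries.X, MvPowerSeries.weightedOrder_monomial_of_ne_zero w one_ne_zero,
      Finsupp.weight_single, one_smul] at h3
    exact_mod_cast h3
  set v : K → ℤ := fun x => (o (nu x) : ℤ) - o (de x) with hv
  have hvs : ∀ a b : A, a ≠ 0 → b ≠ 0 →
      v (algebraMap A K a / algebraMap A K b) = (o a : ℤ) - o b := by
    intro a b ha hb
    set x := algebraMap A K a / algebraMap A K b with hx
    have hx0 : x ≠ 0 := div_ne_zero (hne a ha) (hne b hb)
    have h1 := hnd x
    have hnu : nu x ≠ 0 := by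
      intro h
      rw [h, map_zero, zero_div] at h1
      exact hx0 h1.symm
    have h2 : nu x * b = a * de x := by
      apply hinj
      rw [map_mul, map_mul]
      have h3 : algebraMap A K (nu x) / algebraMap A K (de x) =
          algebraMap A K a / algebraMap A K b := h1
      rw [div_eq_div_iff (hne _ (hde x)) (hne b hb)] at h3
      exact h3
    have h4 := congrArg o h2
    rw [ho, WVL_o_mul hφ w hnu hb, WVL_o_mul hφ w ha (hde x), ← ho] at h4
    show (o (nu x) : ℤ) - o (de x) = _
    have h5 : (o (nu x) : ℤ) + o b = o a + o (de x) := by exact_mod_cast h4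
    linarith
  have hva : ∀ a : A, a ≠ 0 → v (algebraMap A K a) = o a := by
    intro a ha
    have h1 := hvs a 1 ha one_ne_zero
    rw [map_one, div_one] at h1
    rw [h1]
    have h2 := WVL_o_mul hφ w (one_ne_zero (α := A)) (one_ne_zero (α := A))
    rw [mul_one, ← ho] at h2
    have h3 : o 1 = 0 := by omega
    rw [h3]
    simp
  have hrep : ∀ x : K, x ≠ 0 → ∃ a b : A, a ≠ 0 ∧ b ≠ 0 ∧
      x = algebraMap A K a / algebraMap A K b := by
    intro x hx
    refine ⟨nu x, de x, ?_, hde x, (hnd x).symm⟩
    intro h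
    have h1 := hnd x
    rw [h, map_zero, zero_div] at h1
    exact hx h1.symm
  refine ⟨v, ⟨?_, ?_, ?_⟩, ?_⟩
  · intro x z hx hz
    obtain ⟨a, b, ha, hb, rfl⟩ := hrep x hx
    obtain ⟨c, d, hc, hd, rfl⟩ := hrep z hz
    rw [div_mul_div_comm, ← map_mul, ← map_mul, hvs _ _ (mul_ne_zero ha hc) (mul_ne_zero hb hd),
      hvs _ _ ha hb, hvs _ _ hc hd, ho, WVL_o_mul hφ w ha hc, WVL_o_mul hφ w hb hd]
    push_cast
    ring
  · intro x z hx hz hxz
    obtain ⟨a, b, ha, hb, rfl⟩ := hrep x hx
    obtain ⟨c, d, hc, hd, rfl⟩ := hrep z hz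
    have h1 : algebraMap A K a / algebraMap A K b + algebraMap A K c / algebraMap A K d =
        algebraMap A K (a * d + b * c) / algebraMap A K (b * d) := by
      rw [div_add_div _ _ (hne b hb) (hne d hd), map_add, map_mul, map_mul, map_mul]
    have h2 : a * d + b * c ≠ 0 := by
      intro h
      rw [h1, h, map_zero, zero_div] at hxz
      exact hxz rfl
    rw [h1, hvs _ _ h2 (mul_ne_zero hb hd), hvs _ _ ha hb, hvs _ _ hc hd]
    have h3 := WVL_o_add hφ w (mul_ne_zero ha hd) (mul_ne_zero hb hc) h2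
    rw [WVL_o_mul hφ w ha hd, WVL_o_mul hφ w hb hc, ← ho] at h3
    have h4 : o (b * d) = o b + o d := by rw [ho, WVL_o_mul hφ w hb hd]
    rw [h4]
    rcases min_le_iff.1 h3 with h5 | h5
    · apply min_le_iff.2
      left
      push_cast
      have : ((o a + o d : ℕ) : ℤ) ≤ o (a * d + b * c) := by exact_mod_cast h5
      push_cast at this
      linarith
    · apply min_le_iff.2
      right
      push_cast
      have : ((o b + o c : ℕ) : ℤ) ≤ o (a * d + b * c) := by exact_mod_cast h5
      push_cast at this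
      linarith
  · rcases hw with ⟨i, hi⟩ | ⟨i, j, hij⟩
    · refine ⟨algebraMap A K (y i), hne _ (hov i).1, ?_⟩
      rw [hva _ (hov i).1, (hov i).2, hi]
      simp
    · refine ⟨algebraMap A K (y i) / algebraMap A K (y j),
        div_ne_zero (hne _ (hov i).1) (hne _ (hov j).1), ?_⟩
      rw [hvs _ _ (hov i).1 (hov j).1, (hov i).2, (hov j).2, hij]
      push_cast
      ring
  · intro a r
    by_cases ha : a = 0
    · rw [ha, map_zero, map_zero]
      constructor
      · intro _ α _
        rw [map_zero]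
      · intro _
        exact Or.inl rfl
    · have h1 : Ge v r (algebraMap A K a) ↔ r ≤ o a := by
        unfold Ge
        rw [hva a ha]
        constructor
        · rintro (h | h)
          · exact absurd h (hne a ha)
          · exact_mod_cast h
        · intro h
          right
          exact_mod_cast h
      rw [h1]
      have h2 := WVL_o_coe hφ w ha
      constructor
      · intro h α hα
        apply MvPowerSeries.coeff_eq_zero_of_lt_weightedOrder w
        rw [← h2]
        exact_mod_cast lt_of_lt_of_le hα h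
      · intro h
        have h3 := MvPowerSeries.nat_le_weightedOrder w (f := φ a) (n := r) h
        rw [← h2] at h3
        exact_mod_cast h3

end Pool.Agent.QS
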